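import Pool.Agent.Y751.VK.Lam0
import Pool.Agent.Y957.VK.Triv
import Pool.Agent.Y306.VK.Zeta
import Pool.Agent.Y125.VK.Shift
import Pool.Agent.Y235.VK.Hol
import Pool.Agent.Y288.VK.Tw
import Pool.Agent.Y309.VK.DA
import Pool.Agent.Y331.VK.Lin
import Pool.Agent.Y331.VK.WB
import Pool.Agent.Y70.VK.Tn
import Pool.Agent.Y824.VK.Zs
import Pool.Agent.Y901.VK.Vmvt
import Pool.Agent.Y911.VK.Cond
import Pool.Agent.Y93.VK.DB
import Pool.Agent.Y950.VK.Cnt
import Pool.Agent.Y957.VK.Stm2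

set_option autoImplicit false

/-!
Project VK (helper957), job LAM: twisted sums of `Λ - 1`.  The upper bound `S_ZETA` is taken from the first
part of the project.
-/

namespace Pool.Agent.Y751.VK

open Pool.Agent.Y957.VK

/-- the upper bound for the zeta function, unconditionally -/
theorem zeta_un : S_ZETA :=
  Pool.Agent.Y306.VK.zeta_up (Pool.Agent.Y824.VK.zs Pool.Agent.Y125.VK.shift
    (Pool.Agent.Y70.VK.tn
      (Pool.Agent.Y901.VK.vmvt
        (rec_of Pool.Agent.Y235.VK.hol (Pool.Agent.Y950.VK.cnt Pool.Agent.Y331.VK.lin))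
        Pool.Agent.Y911.VK.cond)
      (dbl_of Pool.Agent.Y309.VK.da Pool.Agent.Y93.VK.db)
      (Pool.Agent.Y288.VK.tw Pool.Agent.Y331.VK.wb)))

/-- Job LAM. -/
theorem lam (h : S_INV) : S_LAM := lam_of zeta_un h

end Pool.Agent.Y751.VK
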