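import Pool.Agent.Y751.VK.LamZ
import Pool.Agent.W66.PA
import Pool.Agent.Y25.VK.MobA

set_option autoImplicit false

/-!
Project VK (helper957), job LAM: the smoothed twisted sum of `Λ - 1` (adaptation of `Y25/VK/MobA.lean`).
-/

open Complex Filter Topology Set MeasureTheory Metric
open scoped Real FourierTransform

namespace Pool.Agent.Y751.VK

open Pool.Agent.H379R2.SW (vert vert_re vert_im vert_ne_zero continuous_vert)
open Pool.Agent.W66 (exp_vert integrable_inv_norm_vert_sq' perron_vert)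
open Pool.Agent.Y25.VK (norm_exp_vert)

/-- the coefficients `Λ(n) - 1` -/
noncomputable def La : ℕ → ℂ := fun n => (ArithmeticFunction.vonMangoldt n : ℂ) - 1

/-- the smoothed sum -/
noncomputable def RS (τ v : ℝ) : ℂ :=
  ∑' n : ℕ, LSeries.term La ⟨0, τ⟩ n * ((max (v - Real.log n) 0 : ℝ) : ℂ)

lemma La_eq : La = (fun n => (ArithmeticFunction.vonMangoldt n : ℂ)) - 1 := by
  ext n
  simp [La]

lemma La_summable {s : ℂ} (hs : 1 < s.re) : LSeriesSummable La s := by
  rw [La_eq]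
  exact (ArithmeticFunction.LSeriesSummable_vonMangoldt hs).sub (LSeriesSummable_one_iff.2 hs)

theorem RS_eq {c : ℝ} (hc : 1 < c) (τ v : ℝ) :
    RS τ v = ∫ ξ : ℝ, LSeries La (⟨0, τ⟩ + vert c ξ) *
      (cexp (vert c ξ * v) / (vert c ξ) ^ 2) := by
  have hc0 : 0 < c := by linarith
  have ha : LSeriesSummable La (c : ℂ) := La_summable (by simpa using hc)
  set F : ℕ → ℝ → ℂ := fun n ξ => LSeries.term La (⟨0, τ⟩ + vert c ξ) n *
    (cexp (vert c ξ * v) / (vert c ξ) ^ 2) with hF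
  have hterm : ∀ n ξ, F n ξ = LSeries.term La ⟨0, τ⟩ n *
      (cexp (vert c ξ * ((v - Real.log n : ℝ) : ℂ)) / (vert c ξ) ^ 2) := by
    intro n ξ
    simp only [hF]
    rcases Nat.eq_zero_or_pos n with rfl | hn
    · simp
    · rw [LSeries.term_of_ne_zero hn.ne', LSeries.term_of_ne_zero hn.ne']
      have hnc : (n : ℂ) ≠ 0 := by exact_mod_cast hn.ne'
      have h1 : (n : ℂ) ^ ((⟨0, τ⟩ : ℂ) + vert c ξ) = (n : ℂ) ^ (⟨0, τ⟩ : ℂ) *
          cexp (vert c ξ * (Real.log n : ℝ)) := by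
        rw [Complex.cpow_add _ _ hnc]
        congr 1
        rw [Complex.cpow_def_of_ne_zero hnc, ← Complex.natCast_log]
        congr 1
        push_cast
        ring
      have h2 : cexp (vert c ξ * ((v - Real.log n : ℝ) : ℂ)) =
          cexp (vert c ξ * v) / cexp (vert c ξ * (Real.log n : ℝ)) := by
        rw [← Complex.exp_sub]
        congr 1
        push_cast
        ring
      rw [h1, h2]
      have h3 : (n : ℂ) ^ (⟨0, τ⟩ : ℂ) ≠ 0 := by
        rw [Complex.cpow_def_of_ne_zero hnc]; exact Complex.exp_ne_zero _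
      have h4 := Complex.exp_ne_zero (vert c ξ * (Real.log n : ℝ))
      have h5 := vert_ne_zero hc0 ξ
      field_simp
  have hnorm : ∀ n ξ, ‖F n ξ‖ = ‖LSeries.term La (c : ℂ) n‖ *
      (Real.exp (c * v) * (‖vert c ξ‖ ^ 2)⁻¹) := by
    intro n ξ
    simp only [hF]
    rw [norm_mul, norm_div, norm_exp_vert, norm_pow, div_eq_mul_inv]
    congr 1
    rw [LSeries.norm_term_eq, LSeries.norm_term_eq]
    congr 2
    simp [vert_re]
  have hkint := integrable_inv_norm_vert_sq' hc0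
  have hFint : ∀ n, Integrable (F n) := by
    intro n
    refine Integrable.mono' ((hkint.const_mul (Real.exp (c * v))).const_mul
      ‖LSeries.term La (c : ℂ) n‖) ?_ ?_
    · apply Continuous.aestronglyMeasurable
      have : F n = fun ξ => LSeries.term La ⟨0, τ⟩ n *
        (cexp (vert c ξ * ((v - Real.log n : ℝ) : ℂ)) / (vert c ξ) ^ 2) :=
        funext (hterm n)
      rw [this]
      have h1 := continuous_vert c
      exact continuous_const.mul (Continuous.div (by fun_prop) (h1.pow 2)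
        (fun ξ => pow_ne_zero 2 (vert_ne_zero hc0 ξ)))
    · exact Eventually.of_forall (fun ξ => (hnorm n ξ).le)
  have hFsum : Summable (fun n => ∫ ξ, ‖F n ξ‖) := by
    simp only [hnorm, integral_const_mul]
    exact ha.norm.mul_right _
  have hmain := hasSum_integral_of_summable_integral_norm hFint hFsum
  have hI : ∀ n, ∫ ξ, F n ξ = LSeries.term La ⟨0, τ⟩ n * ((max (v - Real.log n) 0 : ℝ) : ℂ) := by
    intro n
    have h1 : ∫ ξ, F n ξ = LSeries.term La ⟨0, τ⟩ n *
        ∫ ξ : ℝ, (cexp (vert c ξ * ((v - Real.log n : ℝ) : ℂ)) / (vert c ξ) ^ 2) := by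
      simp only [hterm]
      rw [integral_const_mul]
    rw [h1, perron_vert hc0]
  simp only [hI] at hmain
  unfold RS
  rw [hmain.tsum_eq]
  congr 1
  ext ξ
  simp only [hF]
  rw [tsum_mul_right]
  rfl

lemma zeta1_ne {w : ℂ} (hw : 1 < w.re) : riemannZeta₁ w ≠ 0 := by
  have hne : w ≠ 1 := by
    intro h
    rw [h] at hw
    simp at hw
  have h1 := riemannZeta_ne_zero_of_one_lt_re hw
  intro h
  rw [riemannZeta_eq_inv_sub_mul hne, h, mul_zero] at h1
  exact h1 rfl

lemma LSeries_La {w : ℂ} (hw : 1 < w.re) : LSeries La w = QQ w ∧ riemannZeta₁ w ≠ 0 := by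
  have hne : w ≠ 1 := by
    intro h
    rw [h] at hw
    simp at hw
  refine ⟨?_, zeta1_ne hw⟩
  rw [QQ_eq hne (zeta1_ne hw), La_eq, LSeries_sub
    (ArithmeticFunction.LSeriesSummable_vonMangoldt hw) (LSeriesSummable_one_iff.2 hw),
    LSeries_one_eq_riemannZeta hw,
    ArithmeticFunction.LSeries_vonMangoldt_eq_deriv_riemannZeta_div hw]
  ring

lemma norm_La {n : ℕ} (hn : 1 ≤ n) : ‖La n‖ ≤ Real.log n + 1 := by
  unfold La
  refine (norm_sub_le _ _).trans ?_
  rw [Complex.norm_real, norm_one, Real.norm_of_nonneg ArithmeticFunction.vonMangoldt_nonneg]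
  have := ArithmeticFunction.vonMangoldt_le_log (n := n)
  linarith

lemma norm_La_le {w : ℂ} (hw : 1 < w.re) (hw2 : w.re ≤ 2) :
    ‖LSeries La w‖ ≤ 12 * (1 / (w.re - 1)) ^ 2 := by
  set c := w.re with hc
  set ε := (c - 1) / 2 with hε
  have hε0 : 0 < ε := by linarith
  have hε1 : ε ≤ 1 / 2 := by linarith
  have hc' : 1 < c - ε := by linarith
  have h0 := ZetaAsymptotics.zeta_limit_aux1 hc'
  have h1 : ∀ n, ‖LSeries.term La w n‖ ≤ if n = 0 then 0 else 2 / ε * (1 / (n : ℝ) ^ (c - ε)) := by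
    intro n
    rw [LSeries.norm_term_eq]
    split_ifs with h
    · exact le_rfl
    · have hn : 1 ≤ n := Nat.pos_of_ne_zero h
      have hn0 : (0 : ℝ) < n := by exact_mod_cast hn
      have hn1 : (1 : ℝ) ≤ n := by exact_mod_cast hn
      have h2 := norm_La hn
      have h3 := Real.log_le_rpow_div hn0.le hε0
      have h4 : (1 : ℝ) ≤ (n : ℝ) ^ ε := Real.one_le_rpow hn1 hε0.le
      have h5 : ‖La n‖ ≤ 2 / ε * (n : ℝ) ^ ε := by
        have h6 : (n : ℝ) ^ ε ≤ (n : ℝ) ^ ε / ε := by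
          rw [le_div_iff₀ hε0]
          nlinarith
        calc ‖La n‖ ≤ (n : ℝ) ^ ε / ε + (n : ℝ) ^ ε / ε := by linarith
          _ = _ := by ring
      rw [Real.rpow_sub hn0, one_div_div, ← mul_div_assoc]
      exact div_le_div_of_nonneg_right h5 (by positivity)
  have h2 : Summable (fun n : ℕ => 1 / ((n : ℝ) + 1) ^ (c - ε)) := by
    have h3 := (Real.summable_one_div_nat_rpow.2 hc')
    have h4 := (summable_nat_add_iff 1).2 h3
    simpa using h4
  have h3 : HasSum (fun n : ℕ => if n = 0 then 0 else 2 / ε * (1 / (n : ℝ) ^ (c - ε)))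
      (2 / ε * ∑' n : ℕ, 1 / ((n : ℝ) + 1) ^ (c - ε)) := by
    rw [← hasSum_nat_add_iff' 1]
    simpa using h2.hasSum.mul_left (2 / ε)
  have h4 : ‖LSeries La w‖ ≤ 2 / ε * ∑' n : ℕ, 1 / ((n : ℝ) + 1) ^ (c - ε) := by
    unfold LSeries
    exact tsum_of_norm_bounded h3 h1
  have h5 : 0 ≤ ZetaAsymptotics.termTSum (c - ε) :=
    tsum_nonneg fun n => ZetaAsymptotics.term_nonneg _ _
  have h6 : 0 ≤ (c - ε) * ZetaAsymptotics.termTSum (c - ε) := mul_nonneg (by linarith) h5
  have h7 : ∑' n : ℕ, 1 / ((n : ℝ) + 1) ^ (c - ε) ≤ 1 + 1 / (c - ε - 1) := by linarith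
  refine h4.trans ((mul_le_mul_of_nonneg_left h7 (by positivity)).trans ?_)
  set x := 1 / (c - 1) with hx
  have hx1 : 1 ≤ x := by
    rw [hx, le_div_iff₀ (by linarith)]
    linarith
  have h8 : 1 / (c - ε - 1) = 2 * x := by
    rw [hx, hε]
    have : c - 1 ≠ 0 := by linarith
    have h9 : c - (c - 1) / 2 - 1 = (c - 1) / 2 := by ring
    rw [h9]
    field_simp
  have h10 : 2 / ε = 4 * x := by
    rw [hx, hε]
    have : c - 1 ≠ 0 := by linarith
    field_simp
    ring
  rw [h8, h10]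
  nlinarith

end Pool.Agent.Y751.VK
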